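import Pool.Agent.V8H47.VC.Defs
import Pool.Agent.V8H47.DDom.Lattice
import Pool.Agent.R451.Hermite

/-! Hermite's inequality for real lattices, from the one for rational forms. -/

open Matrix Finset Filter Topology

namespace Pool.Agent.V8H47.TP

open Pool.Agent.H160R3.Herm Pool.Agent.TH220.HG Pool.Agent.V8H47.DDom Pool.Agent.V8H47.VC

/-- Hermite's inequality for a rational matrix -/
theorem herm_rat (n : ℕ) (R : Matrix (Fin (n + 1)) (Fin (n + 1)) ℚ) (hR : R.det ≠ 0) :
    minSq (R.map (fun t : ℚ => (t : ℝ))) ^ (n + 1) ≤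
      (4 / 3) ^ (n * (n + 1) / 2) * (R.map (fun t : ℚ => (t : ℝ))).det ^ 2 := by
  have hPD : Pool.Agent.R451.Hermite.PD (Rᵀ * R) := by
    constructor
    · rw [Matrix.IsSymm, Matrix.transpose_mul, Matrix.transpose_transpose]
    · intro x hx
      have h1 : Pool.Agent.R451.Hermite.q (Rᵀ * R) x = ∑ i, (R *ᵥ x) i ^ 2 := by
        unfold Pool.Agent.R451.Hermite.q
        rw [← Matrix.mulVec_mulVec, Matrix.mulVec_transpose, dotProduct_comm,
          ← Matrix.dotProduct_mulVec]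
        unfold dotProduct
        apply Finset.sum_congr rfl
        intro i _
        ring
      rw [h1]
      refine lt_of_le_of_ne (Finset.sum_nonneg fun _ _ => sq_nonneg _) fun h => hx ?_
      have h2 := (Finset.sum_eq_zero_iff_of_nonneg (fun i _ => sq_nonneg _)).1 h.symm
      apply Matrix.eq_zero_of_mulVec_eq_zero hR
      ext i
      have := h2 i (Finset.mem_univ i)
      simpa using this
  obtain ⟨U, hU, h⟩ := Pool.Agent.R451.Hermite.hermite n (Rᵀ * R) hPD
  set w : Fin (n + 1) → ℤ := U *ᵥ Pi.single 0 1 with hw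
  have hw0 : w ≠ 0 := by
    intro h0
    have := Matrix.eq_zero_of_mulVec_eq_zero hU.ne_zero h0
    have := congrFun this 0
    simp at this
  have hcast : ((Pool.Agent.R451.Hermite.q (Rᵀ * R) (Pool.Agent.R451.Hermite.cst w) : ℚ) : ℝ) =
      nsq (R.map (fun t : ℚ => (t : ℝ))) w := by
    have h1 : Pool.Agent.R451.Hermite.q (Rᵀ * R) (Pool.Agent.R451.Hermite.cst w) =
        ∑ i, (R *ᵥ (Pool.Agent.R451.Hermite.cst w)) i ^ 2 := by
      unfold Pool.Agent.R451.Hermite.q
      rw [← Matrix.mulVec_mulVec, Matrix.mulVec_transpose, dotProduct_comm,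
        ← Matrix.dotProduct_mulVec]
      unfold dotProduct
      apply Finset.sum_congr rfl
      intro i _
      ring
    rw [h1]
    unfold nsq
    push_cast
    apply Finset.sum_congr rfl
    intro i _
    congr 1
    simp only [Matrix.mulVec, dotProduct, Matrix.map_apply, Pool.Agent.R451.Hermite.cst]
    push_cast
    rfl
  have hdet : ((Rᵀ * R).det : ℝ) = (R.map (fun t : ℚ => (t : ℝ))).det ^ 2 := by
    rw [Matrix.det_mul, Matrix.det_transpose]
    have := RingHom.map_det (Rat.castHom ℝ) R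
    have h2 : (R.map (fun t : ℚ => (t : ℝ))).det = (R.det : ℝ) := by
      rw [show ((R.det : ℚ) : ℝ) = Rat.castHom ℝ R.det from rfl, this]
      rfl
    rw [h2]
    push_cast
    ring
  have h3 : ((Pool.Agent.R451.Hermite.q (Rᵀ * R) (Pool.Agent.R451.Hermite.cst w) : ℚ) : ℝ) ^ (n + 1)
      ≤ (4 / 3) ^ (n * (n + 1) / 2) * ((Rᵀ * R).det : ℝ) := by
    have h4 : (((Pool.Agent.R451.Hermite.q (Rᵀ * R) (Pool.Agent.R451.Hermite.cst w)) ^ (n + 1) : ℚ) :
        ℝ) ≤ (((4 / 3) ^ (n * (n + 1) / 2) * (Rᵀ * R).det : ℚ) : ℝ) := Rat.cast_le.2 h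
    have e : ((4 / 3 : ℚ) : ℝ) = 4 / 3 := by norm_num
    rw [Rat.cast_mul, Rat.cast_pow, Rat.cast_pow, e] at h4
    exact h4
  rw [hcast, hdet] at h3
  exact (pow_le_pow_left₀ (minSq_nonneg _) (minSq_le _ w hw0) _).trans h3

theorem exists_rat {n : ℕ} (A : Matrix (Fin n) (Fin n) ℝ) {δ : ℝ} (hδ : 0 < δ) :
    ∃ R : Matrix (Fin n) (Fin n) ℚ, ∀ i j, |(R i j : ℝ) - A i j| < δ := by
  have h : ∀ i j, ∃ r : ℚ, |(r : ℝ) - A i j| < δ := by
    intro i j
    obtain ⟨r, h1, h2⟩ := exists_rat_btwn (show A i j - δ < A i j + δ by linarith)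
    exact ⟨r, abs_sub_lt_iff.2 ⟨by linarith, by linarith⟩⟩
  choose R hR using h
  exact ⟨Matrix.of R, hR⟩

theorem norm_vec_eq {n : ℕ} (A : Matrix (Fin n) (Fin n) ℝ) (v : Fin n → ℤ) :
    ‖VC.vec A v‖ = √(nsq A v) := by
  rw [← norm_vec, Real.sqrt_sq (norm_nonneg _)]

/-- approximation of a real matrix -/
theorem near {n : ℕ} {A : Matrix (Fin n) (Fin n) ℝ} (hA : A.det ≠ 0) {η : ℝ}
    (hη : 0 < η) (hη1 : η < 1) : ∃ R : Matrix (Fin n) (Fin n) ℚ, R.det ≠ 0 ∧
      |(R.map (fun t : ℚ => (t : ℝ))).det| ≤ (1 + η) * |A.det| ∧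
      ∀ w : Fin n → ℤ, (1 - η) ^ 2 * nsq A w ≤ nsq (R.map (fun t : ℚ => (t : ℝ))) w := by
  have hd : 0 < |A.det| := abs_pos.mpr hA
  -- the determinant
  have hcont : Continuous fun M : Matrix (Fin n) (Fin n) ℝ => M.det := continuous_id.matrix_det
  have hnhds : {M : Matrix (Fin n) (Fin n) ℝ | |M.det - A.det| < η * |A.det|} ∈ 𝓝 A := by
    have h1 : Tendsto (fun M : Matrix (Fin n) (Fin n) ℝ => |M.det - A.det|) (𝓝 A) (𝓝 0) := by
      have := ((hcont.sub (continuous_const (y := A.det))).abs).tendsto A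
      simpa using this
    exact h1.eventually (gt_mem_nhds (by positivity))
  have hbasis : ∃ δ₁ : ℝ, 0 < δ₁ ∧ ∀ M : Matrix (Fin n) (Fin n) ℝ,
      (∀ i j, |M i j - A i j| < δ₁) → |M.det - A.det| < η * |A.det| := by
    have h2 : {M : Fin n → Fin n → ℝ | |(Matrix.of M).det - A.det| < η * |A.det|} ∈
        𝓝 (fun i j => A i j) := hnhds
    obtain ⟨δ₁, h3, h4⟩ := Metric.mem_nhds_iff.1 h2
    refine ⟨δ₁, h3, fun M hM => ?_⟩
    have h5 : (fun i j => M i j) ∈ Metric.ball (fun i j => A i j) δ₁ := by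
      rw [Metric.mem_ball, dist_pi_lt_iff h3]
      intro i
      rw [dist_pi_lt_iff h3]
      intro j
      rw [Real.dist_eq]
      exact hM i j
    exact h4 h5
  obtain ⟨δ₁, hδ₁, hdet⟩ := hbasis
  set c : ℝ := ∑ i, ∑ j, |A⁻¹ i j| with hc
  have hc0 : 0 ≤ c := Finset.sum_nonneg fun _ _ => Finset.sum_nonneg fun _ _ => abs_nonneg _
  set δ₂ : ℝ := η / ((n + 1) * (c + 1) * (√n + 1)) with hδ₂
  have hδ₂0 : 0 < δ₂ := by positivity
  obtain ⟨R, hR⟩ := exists_rat A (lt_min hδ₁ hδ₂0)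
  set R' := R.map (fun t : ℚ => (t : ℝ)) with hR'
  have hdR : |R'.det - A.det| < η * |A.det| :=
    hdet R' fun i j => (hR i j).trans_le (min_le_left _ _)
  have hdetR' : R'.det ≠ 0 := by
    intro h0
    rw [h0, zero_sub, abs_neg] at hdR
    nlinarith
  refine ⟨R, ?_, ?_, ?_⟩
  · intro h0
    apply hdetR'
    have := RingHom.map_det (Rat.castHom ℝ) R
    have h2 : R'.det = (R.det : ℝ) := by
      rw [show ((R.det : ℚ) : ℝ) = Rat.castHom ℝ R.det from rfl, this]
      rfl
    rw [h2, h0]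
    simp
  · have := abs_sub_abs_le_abs_sub R'.det A.det
    linarith
  · intro w
    have hAu : IsUnit A.det := isUnit_iff_ne_zero.mpr hA
    set v := A.mulVec (fun j => (w j : ℝ)) with hv
    set s := √(nsq A w) with hs
    have hs0 : 0 ≤ s := Real.sqrt_nonneg _
    have h2 : ∀ j, |v j| ≤ s := by
      intro j
      apply Real.abs_le_sqrt
      exact Finset.single_le_sum (f := fun i => v i ^ 2) (fun _ _ => sq_nonneg _)
        (Finset.mem_univ j)
    have h3 : ∀ i, |(w i : ℝ)| ≤ c * s := by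
      intro i
      have h1 : (w i : ℝ) = ∑ j, A⁻¹ i j * v j := by
        have : A⁻¹.mulVec v = fun j => (w j : ℝ) := by
          rw [hv, Matrix.mulVec_mulVec, Matrix.nonsing_inv_mul _ hAu, Matrix.one_mulVec]
        have h2 := congrFun this i
        rw [← h2]
        rfl
      rw [h1]
      calc |∑ j, A⁻¹ i j * v j| ≤ ∑ j, |A⁻¹ i j * v j| := Finset.abs_sum_le_sum_abs _ _
        _ ≤ ∑ j, |A⁻¹ i j| * s := by
            apply Finset.sum_le_sum
            intro j _
            rw [abs_mul]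
            exact mul_le_mul_of_nonneg_left (h2 j) (abs_nonneg _)
        _ = (∑ j, |A⁻¹ i j|) * s := by rw [Finset.sum_mul]
        _ ≤ c * s := by
            apply mul_le_mul_of_nonneg_right _ hs0
            exact Finset.single_le_sum (f := fun i => ∑ j, |A⁻¹ i j|)
              (fun _ _ => Finset.sum_nonneg fun _ _ => abs_nonneg _) (Finset.mem_univ i)
    have h4 : ∀ i, |((R' - A) *ᵥ (fun j => (w j : ℝ))) i| ≤ n * δ₂ * (c * s) := by
      intro i
      calc |((R' - A) *ᵥ (fun j => (w j : ℝ))) i| = |∑ j, (R' - A) i j * w j| := rfl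
        _ ≤ ∑ j, |(R' - A) i j * w j| := Finset.abs_sum_le_sum_abs _ _
        _ ≤ ∑ _j : Fin n, δ₂ * (c * s) := by
            apply Finset.sum_le_sum
            intro j _
            rw [abs_mul]
            exact mul_le_mul ((hR i j).trans_le (min_le_right _ _)).le (h3 j) (abs_nonneg _)
              hδ₂0.le
        _ = n * δ₂ * (c * s) := by
            rw [Finset.sum_const, Finset.card_univ, Fintype.card_fin, nsmul_eq_mul]; ring
    have h5 : ‖VC.vec (R' - A) w‖ ≤ η * s := by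
      have h6 : ‖VC.vec (R' - A) w‖ ^ 2 ≤ (√n * (n * δ₂ * (c * s))) ^ 2 := by
        rw [norm_vec]
        unfold nsq
        calc ∑ i, ((R' - A) *ᵥ (fun j => (w j : ℝ))) i ^ 2 ≤
            ∑ _i : Fin n, (n * δ₂ * (c * s)) ^ 2 := by
              apply Finset.sum_le_sum
              intro i _
              rw [← sq_abs]
              exact pow_le_pow_left₀ (abs_nonneg _) (h4 i) 2
          _ = (√n * (n * δ₂ * (c * s))) ^ 2 := by
              rw [Finset.sum_const, Finset.card_univ, Fintype.card_fin, nsmul_eq_mul, mul_pow (√n),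
                Real.sq_sqrt (by positivity)]
      have h7 : ‖VC.vec (R' - A) w‖ ≤ √n * (n * δ₂ * (c * s)) :=
        (pow_le_pow_iff_left₀ (norm_nonneg _) (by positivity) two_ne_zero).1 h6
      refine h7.trans ?_
      have e : √n * (n * δ₂ * (c * s)) = η * s * ((√n / (√n + 1)) * (n / (n + 1)) * (c / (c + 1))) := by
        rw [hδ₂]
        field_simp
      rw [e]
      have k1 : √n / (√n + 1) ≤ 1 := by rw [div_le_one (by positivity)]; linarith
      have k2 : (n : ℝ) / (n + 1) ≤ 1 := by rw [div_le_one (by positivity)]; linarith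
      have k3 : c / (c + 1) ≤ 1 := by rw [div_le_one (by positivity)]; linarith
      have k4 : (√n / (√n + 1)) * (n / (n + 1)) * (c / (c + 1)) ≤ 1 := by
        have : (√n / (√n + 1)) * ((n : ℝ) / (n + 1)) ≤ 1 := mul_le_one₀ k1 (by positivity) k2
        exact mul_le_one₀ this (by positivity) k3
      have : 0 ≤ η * s := by positivity
      nlinarith
    have h8 : VC.vec A w = VC.vec R' w - VC.vec (R' - A) w := by
      unfold VC.vec
      rw [Matrix.sub_mulVec, WithLp.toLp_sub]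
      abel
    have h9 : s ≤ ‖VC.vec R' w‖ + η * s := by
      have : ‖VC.vec A w‖ ≤ ‖VC.vec R' w‖ + ‖VC.vec (R' - A) w‖ := by
        rw [h8]; exact norm_sub_le _ _
      rw [norm_vec_eq] at this
      linarith
    have h10 : (1 - η) * s ≤ ‖VC.vec R' w‖ := by linarith
    have h11 := pow_le_pow_left₀ (by
      apply mul_nonneg _ hs0
      linarith) h10 2
    rw [norm_vec, mul_pow, hs, Real.sq_sqrt (nsq_nonneg _ _)] at h11
    exact h11

/-- **Hermite's inequality.** -/
theorem herm_real (n : ℕ) {A : Matrix (Fin (n + 1)) (Fin (n + 1)) ℝ} (hA : A.det ≠ 0) :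
    minSq A ^ (n + 1) ≤ (4 / 3) ^ (n * (n + 1) / 2) * A.det ^ 2 := by
  have h1 : ∀ η ∈ Set.Ioo (0 : ℝ) 1, ((1 - η) ^ 2 * minSq A) ^ (n + 1) ≤
      (4 / 3) ^ (n * (n + 1) / 2) * ((1 + η) * |A.det|) ^ 2 := by
    rintro η ⟨h0, h1⟩
    obtain ⟨R, hR, hd, hw⟩ := near hA h0 h1
    have h2 := herm_rat n R hR
    have h3 : (1 - η) ^ 2 * minSq A ≤ minSq (R.map (fun t : ℚ => (t : ℝ))) := by
      apply DDom.le_minSq (Nat.succ_pos n)
      intro w hw0
      exact (mul_le_mul_of_nonneg_left (minSq_le A w hw0) (sq_nonneg _)).trans (hw w)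
    refine (pow_le_pow_left₀ (mul_nonneg (sq_nonneg _) (minSq_nonneg A)) h3 _).trans (h2.trans ?_)
    apply mul_le_mul_of_nonneg_left _ (by positivity)
    rw [← sq_abs]
    exact pow_le_pow_left₀ (abs_nonneg _) hd 2
  have h2 : Tendsto (fun η : ℝ => ((1 - η) ^ 2 * minSq A) ^ (n + 1)) (𝓝[>] 0)
      (𝓝 (((1 - 0) ^ 2 * minSq A) ^ (n + 1))) := by
    apply Tendsto.mono_left _ nhdsWithin_le_nhds
    exact (Continuous.tendsto (by fun_prop) 0)
  have h3 : Tendsto (fun η : ℝ => (4 / 3 : ℝ) ^ (n * (n + 1) / 2) * ((1 + η) * |A.det|) ^ 2) (𝓝[>] 0)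
      (𝓝 ((4 / 3 : ℝ) ^ (n * (n + 1) / 2) * ((1 + 0) * |A.det|) ^ 2)) := by
    apply Tendsto.mono_left _ nhdsWithin_le_nhds
    exact (Continuous.tendsto (by fun_prop) 0)
  have h4 := le_of_tendsto_of_tendsto h2 h3 (by
    filter_upwards [Ioo_mem_nhdsGT (zero_lt_one' ℝ)] with η hη
    exact h1 η hη)
  simpa using h4

end Pool.Agent.V8H47.TP
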