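import Pool.Agent.V8H47.DDom.Lattice

/-! Hermite invariants of tensor products of lattices. -/

open Matrix Finset

namespace Pool.Agent.V8H47.TP

open Pool.Agent.H160R3.Herm Pool.Agent.TH220.HG Pool.Agent.V8H47.DDom

/-- the Kronecker product, with rows and columns numbered by `Fin (a * b)` -/
noncomputable def kron {a b : ℕ} (G : Matrix (Fin a) (Fin a) ℝ) (H : Matrix (Fin b) (Fin b) ℝ) :
    Matrix (Fin (a * b)) (Fin (a * b)) ℝ :=
  Matrix.of fun p r => G (finProdFinEquiv.symm p).1 (finProdFinEquiv.symm r).1 *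
    H (finProdFinEquiv.symm p).2 (finProdFinEquiv.symm r).2

theorem det_kron {a b : ℕ} (G : Matrix (Fin a) (Fin a) ℝ) (H : Matrix (Fin b) (Fin b) ℝ) :
    (kron G H).det = G.det ^ b * H.det ^ a := by
  have h1 : kron G H = (kroneckerMap (· * ·) G H).submatrix finProdFinEquiv.symm
      finProdFinEquiv.symm := by
    ext p r
    rfl
  rw [h1, Matrix.det_submatrix_equiv_self, Matrix.det_kronecker]
  simp

theorem q_kron {a b : ℕ} (G : Matrix (Fin a) (Fin a) ℝ) (H : Matrix (Fin b) (Fin b) ℝ)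
    (x : Fin a → ℤ) (y : Fin b → ℤ) :
    q (kron G H) (fun p => x (finProdFinEquiv.symm p).1 * y (finProdFinEquiv.symm p).2) =
      q G x * q H y := by
  rw [q_eq, q_eq, q_eq, ← finProdFinEquiv.sum_comp]
  have h1 : ∀ u : Fin a × Fin b, ∑ r, kron G H (finProdFinEquiv u) r *
      (((fun p : Fin (a * b) => x (finProdFinEquiv.symm p).1 * y (finProdFinEquiv.symm p).2)
        (finProdFinEquiv u) : ℝ) *
      ((fun p : Fin (a * b) => x (finProdFinEquiv.symm p).1 * y (finProdFinEquiv.symm p).2) r)) =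
      (∑ k, G u.1 k * ((x u.1 : ℝ) * x k)) * (∑ l, H u.2 l * ((y u.2 : ℝ) * y l)) := by
    intro u
    rw [← finProdFinEquiv.sum_comp, Fintype.sum_prod_type, Finset.sum_mul_sum]
    apply Finset.sum_congr rfl
    intro k _
    apply Finset.sum_congr rfl
    intro l _
    simp only [kron, Matrix.of_apply, Equiv.symm_apply_apply]
    push_cast
    ring
  rw [Finset.sum_congr rfl fun u _ => h1 u, Fintype.sum_prod_type, Finset.sum_mul_sum]

theorem gam_le_mul {a b : ℕ} (ha : 0 < a) (hb : 0 < b) {M : Matrix (Fin (a * b)) (Fin (a * b)) ℝ}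
    (hM : M.det ≠ 0) {A : Matrix (Fin a) (Fin a) ℝ} (hA : A.det ≠ 0)
    {B : Matrix (Fin b) (Fin b) ℝ} (hB : B.det ≠ 0) (h : gram M = kron (gram A) (gram B)) :
    gam M ≤ gam A * gam B := by
  have hab : 0 < a * b := Nat.mul_pos ha hb
  have ha' : (0 : ℝ) < a := by exact_mod_cast ha
  have hb' : (0 : ℝ) < b := by exact_mod_cast hb
  have hdA : 0 < |A.det| := abs_pos.mpr hA
  have hdB : 0 < |B.det| := abs_pos.mpr hB
  have hdM : 0 < |M.det| := abs_pos.mpr hM
  have h1 : ∀ x : Fin a → ℤ, x ≠ 0 → ∀ y : Fin b → ℤ, y ≠ 0 → minSq M ≤ nsq A x * nsq B y := by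
    intro x hx y hy
    rw [← q_gram A, ← q_gram B, ← q_kron, ← h, q_gram]
    apply minSq_le
    intro h0
    obtain ⟨i, hi⟩ := Function.ne_iff.1 hx
    obtain ⟨j, hj⟩ := Function.ne_iff.1 hy
    have := congrFun h0 (finProdFinEquiv (i, j))
    simp only [Equiv.symm_apply_apply, Pi.zero_apply, mul_eq_zero] at this
    rcases this with h | h
    · exact hi h
    · exact hj h
  have h2 : minSq M ≤ minSq A * minSq B := by
    have hB0 : 0 < minSq B := minSq_pos hb hB
    rw [← div_le_iff₀ hB0]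
    apply DDom.le_minSq ha
    intro x hx
    have hx0 := nsq_pos hA hx
    have h2 : minSq M / nsq A x ≤ minSq B := by
      apply DDom.le_minSq hb
      intro y hy
      rw [div_le_iff₀ hx0, mul_comm (nsq B y)]
      exact h1 x hx y hy
    rw [div_le_iff₀ hx0] at h2
    rw [div_le_iff₀ hB0]
    linarith
  have h3 : |M.det| ^ ((2 : ℝ) / (a * b : ℕ)) = |A.det| ^ ((2 : ℝ) / a) * |B.det| ^ ((2 : ℝ) / b) := by
    have e1 : |M.det| ^ 2 = (|A.det| ^ b * |B.det| ^ a) ^ 2 := by
      rw [sq_abs, ← det_gram, h, det_kron, det_gram, det_gram, ← sq_abs A.det, ← sq_abs B.det]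
      ring
    have e2 : |M.det| = |A.det| ^ b * |B.det| ^ a :=
      (pow_left_inj₀ hdM.le (by positivity) two_ne_zero).1 e1
    rw [e2, Real.mul_rpow (by positivity) (by positivity), ← Real.rpow_natCast,
      ← Real.rpow_natCast, ← Real.rpow_mul hdA.le, ← Real.rpow_mul hdB.le]
    congr 2
    · push_cast
      field_simp
    · push_cast
      field_simp
  unfold gam
  rw [h3, div_mul_div_comm]
  apply div_le_div_of_nonneg_right h2
  positivity

end Pool.Agent.V8H47.TP
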