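import Pool.Agent.V8H47.TP.Kron
import Pool.Agent.V8H47.TP.HermReal
import Pool.Agent.V8H47.VC.Main
import Pool.Agent.W259.GP.Main
import Pool.Agent.W259.GP.Fin

/-! Tensor products of lattices are never near-optimal. -/

open Matrix Finset Filter Topology

namespace Pool.Agent.V8H47.TP

open Pool.Agent.H160R3.Herm Pool.Agent.TH220.HG Pool.Agent.V8H47.DDom Pool.Agent.V8H47.VC

theorem gam_nonneg {n : ℕ} (A : Matrix (Fin n) (Fin n) ℝ) : 0 ≤ gam A :=
  div_nonneg (minSq_nonneg A) (Real.rpow_nonneg (abs_nonneg _) _)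

theorem herm_pow (n : ℕ) {A : Matrix (Fin (n + 1)) (Fin (n + 1)) ℝ} (hA : A.det ≠ 0) :
    gam A ^ (n + 1) ≤ (4 / 3) ^ (n * (n + 1) / 2) := by
  have hd : 0 < |A.det| := abs_pos.mpr hA
  have h1 := herm_real n hA
  have h2 : (|A.det| ^ ((2 : ℝ) / (n + 1 : ℕ))) ^ (n + 1) = A.det ^ 2 := by
    rw [← Real.rpow_natCast, ← Real.rpow_mul hd.le]
    have e : (2 : ℝ) / (n + 1 : ℕ) * (n + 1 : ℕ) = 2 := by
      have : ((n + 1 : ℕ) : ℝ) ≠ 0 := by positivity
      field_simp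
    rw [e, ← sq_abs]
    exact Real.rpow_two _
  rw [gam, div_pow, h2, div_le_iff₀ (by positivity)]
  exact h1

theorem pow_six {a : ℕ} (h : 16 < a) : ((6 : ℝ) * a) ^ 2 ≤ (12 / 5) ^ a := by
  induction a, h using Nat.le_induction with
  | base => norm_num
  | succ a h ih =>
    have h1 : (17 : ℝ) ≤ a := by exact_mod_cast h
    calc ((6 : ℝ) * (a + 1 : ℕ)) ^ 2 ≤ ((6 : ℝ) * a) ^ 2 * (12 / 5) := by
          push_cast
          nlinarith
      _ ≤ (12 / 5) ^ a * (12 / 5) := mul_le_mul_of_nonneg_right ih (by norm_num)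
      _ = (12 / 5) ^ (a + 1) := by rw [pow_succ]

/-- `γ_a / a ≤ 1 / √3` for `a ≥ 2` -/
theorem gam_small {a : ℕ} (ha : 2 ≤ a) {A : Matrix (Fin a) (Fin a) ℝ} (hA : A.det ≠ 0) :
    gam A ≤ a / √3 := by
  have h3 : (0 : ℝ) < √3 := by positivity
  have ha0 : (0 : ℝ) < a := by
    have : 0 < a := by omega
    exact_mod_cast this
  rcases le_or_gt a 16 with h | h
  · obtain ⟨n, rfl⟩ : ∃ n, a = n + 1 := ⟨a - 1, by omega⟩
    have h1 := herm_pow n hA
    have h5 : n * (n + 1) / 2 * 2 = n * (n + 1) :=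
      Nat.div_mul_cancel (Nat.even_mul_succ_self n).two_dvd
    have h2 : (gam A ^ 2) ^ (n + 1) ≤ ((4 / 3) ^ n) ^ (n + 1) := by
      calc (gam A ^ 2) ^ (n + 1) = (gam A ^ (n + 1)) ^ 2 := by ring
        _ ≤ ((4 / 3) ^ (n * (n + 1) / 2)) ^ 2 :=
          pow_le_pow_left₀ (pow_nonneg (gam_nonneg A) _) h1 2
        _ = ((4 / 3) ^ n) ^ (n + 1) := by rw [← pow_mul, ← pow_mul, h5]
    have h6 : gam A ^ 2 ≤ (4 / 3) ^ n :=
      (pow_le_pow_iff_left₀ (sq_nonneg _) (by positivity) (Nat.succ_ne_zero n)).1 h2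
    have h7 : ((4 : ℝ) / 3) ^ n ≤ ((n + 1 : ℕ) / √3) ^ 2 := by
      have e : ((n + 1 : ℕ) / √3 : ℝ) ^ 2 = ((n + 1 : ℕ) : ℝ) ^ 2 / 3 := by
        rw [div_pow, Real.sq_sqrt (by norm_num : (0 : ℝ) ≤ 3)]
      rw [e]
      have : n ≤ 15 := by omega
      have : 1 ≤ n := by omega
      interval_cases n <;> norm_num
    exact (pow_le_pow_iff_left₀ (gam_nonneg A) (by positivity) two_ne_zero).1 (h6.trans h7)
  · classical
    obtain ⟨S, hS, -⟩ := exists_cuts hA
    have hempty : (S.filter fun v => nsq A v < 4 * (1 / 4 : ℝ) * minSq A) = ∅ := by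
      rw [Finset.filter_eq_empty_iff]
      intro v hv
      have hv0 : v ≠ 0 := fun h0 => hS.1 (h0 ▸ hv)
      have := minSq_le A v hv0
      rw [not_lt]
      have h1 : nsq A v = ∑ i, (Matrix.mulVec A (fun j => (v j : ℝ))) i ^ 2 := rfl
      rw [h1]
      linarith
    have h1 := gam_bound (by omega) hA hS (t := 1 / 4) le_rfl (by rw [hempty]; simp)
    have h2 : ((6 : ℝ) * a) ^ 2 ≤ (12 / 5) ^ a := pow_six h
    have h4 : (6 * (a : ℝ)) ^ ((2 : ℝ) / a) ≤ 12 / 5 := by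
      have e1 : (6 * (a : ℝ)) ^ ((2 : ℝ) / a) = ((6 * (a : ℝ)) ^ 2) ^ ((1 : ℝ) / a) := by
        rw [← Real.rpow_natCast (6 * (a : ℝ)) 2, ← Real.rpow_mul (by positivity)]
        congr 1
        push_cast
        ring
      rw [e1]
      refine (Real.rpow_le_rpow (by positivity) h2 (by positivity)).trans (le_of_eq ?_)
      rw [← Real.rpow_natCast, ← Real.rpow_mul (by norm_num)]
      have : (a : ℝ) * (1 / a) = 1 := by field_simp
      rw [this, Real.rpow_one]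
    have hpi := Real.pi_gt_d2
    have he := Real.exp_one_gt_d9
    have hs : √3 < 1.7321 := by
      rw [Real.sqrt_lt' (by norm_num)]
      norm_num
    have h5 : (6 * (a : ℝ)) ^ ((2 : ℝ) / a) / (2 * Real.pi * Real.exp 1 * (1 / 4)) ≤ 1 / √3 := by
      rw [div_le_div_iff₀ (by positivity) h3]
      have h6 : (3.14 : ℝ) * 2.718 ≤ Real.pi * Real.exp 1 :=
        mul_le_mul hpi.le (by linarith) (by norm_num) (by positivity)
      have h7 : (6 * (a : ℝ)) ^ ((2 : ℝ) / a) * √3 ≤ 12 / 5 * 1.7321 :=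
        mul_le_mul h4 hs.le h3.le (by norm_num)
      nlinarith
    have h6 := h1.trans h5
    rw [div_le_div_iff₀ ha0 h3] at h6
    rw [le_div_iff₀ h3]
    linarith

theorem gam_le_hermite {n : ℕ} (hn : 0 < n) {A : Matrix (Fin n) (Fin n) ℝ} (hA : A.det ≠ 0) :
    gam A ≤ Pool.Agent.H390R2.LP.hermite n :=
  le_hermite hn A hA

/-- the basis `M` has the inner products of the basis `x_i ⊗ y_j` of the tensor product of the
lattices with the bases `A`, `B` -/
def IsTensor (a b : ℕ) (M : Matrix (Fin (a * b)) (Fin (a * b)) ℝ) : Prop :=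
  ∃ (A : Matrix (Fin a) (Fin a) ℝ) (B : Matrix (Fin b) (Fin b) ℝ), A.det ≠ 0 ∧ B.det ≠ 0 ∧
    gram M = kron (gram A) (gram B)

theorem tensor_bound {ε : ℝ} (hε : 0 < ε) : ∃ N : ℕ, ∀ a b : ℕ, 2 ≤ a → 2 ≤ b → N ≤ a * b →
    ∀ M : Matrix (Fin (a * b)) (Fin (a * b)) ℝ, M.det ≠ 0 → IsTensor a b M →
    gam M ≤ (1 / (√3 * Real.pi ^ 2) + ε) * (a * b : ℕ) := by
  have h := Pool.Agent.W259.GP.hermite_bound Pool.Agent.W259.GP.s_main ε hε
  obtain ⟨N, hN⟩ := eventually_atTop.1 h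
  refine ⟨N * N, fun a b ha hb hab M hM hT => ?_⟩
  obtain ⟨A, B, hA, hB, hg⟩ := hT
  have hpi := Real.pi_pos
  have h3 : (0 : ℝ) < √3 := by positivity
  have ha0 : (0 : ℝ) < a := by
    have : 0 < a := by omega
    exact_mod_cast this
  have hb0 : (0 : ℝ) < b := by
    have : 0 < b := by omega
    exact_mod_cast this
  have hs3 : 1 / √3 ≤ 1 := by
    rw [div_le_one h3]
    rw [Real.one_le_sqrt]
    norm_num
  have hm := gam_le_mul (by omega) (by omega) hM hA hB hg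
  have key : ∀ c d : ℝ, 0 < c → 0 < d → ∀ x y : ℝ, 0 ≤ x → 0 ≤ y → x ≤ c / √3 →
      y / d ≤ 1 / Real.pi ^ 2 + ε → x * y ≤ (1 / (√3 * Real.pi ^ 2) + ε) * (c * d) := by
    intro c d hc hd x y hx hy h1 h2
    rw [div_le_iff₀ hd] at h2
    calc x * y ≤ (c / √3) * ((1 / Real.pi ^ 2 + ε) * d) := mul_le_mul h1 h2 hy (by positivity)
      _ = (1 / (√3 * Real.pi ^ 2) + 1 / √3 * ε) * (c * d) := by field_simp
      _ ≤ _ := by
        apply mul_le_mul_of_nonneg_right _ (by positivity)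
        nlinarith
  push_cast
  rcases le_or_gt N b with h1 | h1
  · refine hm.trans (key a b ha0 hb0 _ _ (gam_nonneg A) (gam_nonneg B) (gam_small ha hA) ?_)
    exact (div_le_div_of_nonneg_right (gam_le_hermite (by omega) hB) hb0.le).trans (hN b h1)
  · have h2 : N ≤ a := by
      by_contra hlt
      rw [not_le] at hlt
      have : a * b < N * N := Nat.mul_lt_mul'' hlt h1
      omega
    refine hm.trans ?_
    rw [mul_comm, mul_comm (a : ℝ) b]
    refine key b a hb0 ha0 _ _ (gam_nonneg B) (gam_nonneg A) (gam_small hb hB) ?_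
    exact (div_le_div_of_nonneg_right (gam_le_hermite (by omega) hA) ha0.le).trans (hN a h2)

theorem tensor_bound_large {ε : ℝ} (hε : 0 < ε) : ∃ N : ℕ, ∀ a b : ℕ, N ≤ a → N ≤ b →
    ∀ M : Matrix (Fin (a * b)) (Fin (a * b)) ℝ, M.det ≠ 0 → IsTensor a b M →
    gam M ≤ (1 / Real.pi ^ 4 + ε) * (a * b : ℕ) := by
  have hpi := Real.pi_pos
  have hpi1 : 1 / Real.pi ^ 2 ≤ 1 / 4 := by
    have := Real.pi_gt_d2
    apply div_le_div_of_nonneg_left (by norm_num) (by norm_num)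
    nlinarith
  set η := min ε 1 with hη
  have hη0 : 0 < η := lt_min hε one_pos
  have h := Pool.Agent.W259.GP.hermite_bound Pool.Agent.W259.GP.s_main (η / 4) (by positivity)
  obtain ⟨N, hN⟩ := eventually_atTop.1 h
  refine ⟨N + 1, fun a b ha hb M hM hT => ?_⟩
  obtain ⟨A, B, hA, hB, hg⟩ := hT
  have ha0 : (0 : ℝ) < a := by
    have : 0 < a := by omega
    exact_mod_cast this
  have hb0 : (0 : ℝ) < b := by
    have : 0 < b := by omega
    exact_mod_cast this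
  have hm := gam_le_mul (by omega) (by omega) hM hA hB hg
  have h1 : gam A ≤ (1 / Real.pi ^ 2 + η / 4) * a := by
    rw [← div_le_iff₀ ha0]
    exact (div_le_div_of_nonneg_right (gam_le_hermite (by omega) hA) ha0.le).trans
      (hN a (by omega))
  have h2 : gam B ≤ (1 / Real.pi ^ 2 + η / 4) * b := by
    rw [← div_le_iff₀ hb0]
    exact (div_le_div_of_nonneg_right (gam_le_hermite (by omega) hB) hb0.le).trans
      (hN b (by omega))
  have h4 : (1 / Real.pi ^ 2 + η / 4) * (1 / Real.pi ^ 2 + η / 4) ≤ 1 / Real.pi ^ 4 + ε := by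
    have e : (1 / Real.pi ^ 2) * (1 / Real.pi ^ 2) = 1 / Real.pi ^ 4 := by
      rw [div_mul_div_comm]; ring_nf
    have h5 : 0 ≤ 1 / Real.pi ^ 2 := by positivity
    have h6 : η ≤ ε := min_le_left _ _
    have h7 : η ≤ 1 := min_le_right _ _
    nlinarith
  push_cast
  calc gam M ≤ gam A * gam B := hm
    _ ≤ ((1 / Real.pi ^ 2 + η / 4) * a) * ((1 / Real.pi ^ 2 + η / 4) * b) :=
      mul_le_mul h1 h2 (gam_nonneg B) (by positivity)
    _ = ((1 / Real.pi ^ 2 + η / 4) * (1 / Real.pi ^ 2 + η / 4)) * (a * b) := by ring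
    _ ≤ _ := mul_le_mul_of_nonneg_right h4 (by positivity)

theorem ratio_gt : (1.0008 : ℝ) * (2 * Real.exp 1) < √3 * Real.pi := by
  have h1 := Real.exp_one_lt_d9
  have h2 := Real.pi_gt_d6
  have h3 : (1.7320508 : ℝ) < √3 := by
    rw [Real.lt_sqrt (by norm_num)]
    norm_num
  have h4 : (1.7320508 : ℝ) * 3.141592 < √3 * Real.pi :=
    mul_lt_mul'' h3 h2 (by norm_num) (by norm_num)
  linarith

theorem ratio_gt_large : (5.7 : ℝ) * (2 * Real.exp 1) < Real.pi ^ 3 := by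
  have h1 := Real.exp_one_lt_d9
  have h2 := Real.pi_gt_d4
  have h4 : (3.1415 : ℝ) ^ 3 < Real.pi ^ 3 := pow_lt_pow_left₀ h2 (by norm_num) (by norm_num)
  norm_num at h4 ⊢
  linarith

end Pool.Agent.V8H47.TP
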